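import Pool.Agent.W2helper42.HL.Stm
import Pool.Agent.H294ZP.Main

/-!
# Project HL, piece J_REL: isogenies between values of `j`
-/

set_option autoImplicit false

namespace Pool.Agent.W2helper56.HL

open UpperHalfPlane H294ZP
open Pool.Agent.W2helper42.HL

/-- `w = (a τ + b) / (c τ + d)` -/
def R (a b c d : ℤ) (τ w : ℍ) : Prop := (w : ℂ) * (c * τ + d) = a * τ + b

/-- primitive -/
def Prim (a b c d : ℤ) : Prop := ∀ g : ℤ, g ∣ a → g ∣ b → g ∣ c → g ∣ d → IsUnit g

theorem R.comp {a b c d a' b' c' d' : ℤ} {τ w z : ℍ} (h1 : R a b c d τ w)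
    (h2 : R a' b' c' d' w z) :
    R (a' * a + b' * c) (a' * b + b' * d) (c' * a + d' * c) (c' * b + d' * d) τ z := by
  unfold R at *
  push_cast
  linear_combination ((c : ℂ) * τ + d) * h2 + ((a' : ℂ) - z * c') * h1

theorem R.inv {a b c d : ℤ} {τ w : ℍ} (h : R a b c d τ w) : R d (-b) (-c) a w τ := by
  unfold R at *
  push_cast
  linear_combination -h

theorem R.scale {e a b c d : ℤ} (he : e ≠ 0) {τ w : ℍ} (h : R (e * a) (e * b) (e * c) (e * d) τ w) :
    R a b c d τ w := by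
  unfold R at *
  have he' : (e : ℂ) ≠ 0 := by exact_mod_cast he
  apply mul_left_cancel₀ he'
  push_cast at h
  linear_combination h

theorem prim_swap {a b c d : ℤ} (h : Prim a b c d) : Prim d (-b) (-c) a :=
  fun g h1 h2 h3 h4 => h g h4 ((dvd_neg).1 h2) ((dvd_neg).1 h3) h1

theorem prim_right {a b c d p q r s : ℤ} (h : Prim a b c d) (hu : p * s - q * r = 1) :
    Prim (a * p + b * r) (a * q + b * s) (c * p + d * r) (c * q + d * s) := by
  intro g h1 h2 h3 h4
  refine h g ?_ ?_ ?_ ?_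
  · have e : a = (a * p + b * r) * s - (a * q + b * s) * r := by linear_combination -a * hu
    rw [e]
    exact dvd_sub (h1.mul_right _) (h2.mul_right _)
  · have e : b = (a * q + b * s) * p - (a * p + b * r) * q := by linear_combination -b * hu
    rw [e]
    exact dvd_sub (h2.mul_right _) (h1.mul_right _)
  · have e : c = (c * p + d * r) * s - (c * q + d * s) * r := by linear_combination -c * hu
    rw [e]
    exact dvd_sub (h3.mul_right _) (h4.mul_right _)
  · have e : d = (c * q + d * s) * p - (c * p + d * r) * q := by linear_combination -d * hu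
    rw [e]
    exact dvd_sub (h4.mul_right _) (h3.mul_right _)

theorem prim_left {a b c d p q r s : ℤ} (h : Prim a b c d) (hu : p * s - q * r = 1) :
    Prim (p * a + q * c) (p * b + q * d) (r * a + s * c) (r * b + s * d) := by
  intro g h1 h2 h3 h4
  refine h g ?_ ?_ ?_ ?_
  · have e : a = (p * a + q * c) * s - (r * a + s * c) * q := by linear_combination -a * hu
    rw [e]
    exact dvd_sub (h1.mul_right _) (h3.mul_right _)
  · have e : b = (p * b + q * d) * s - (r * b + s * d) * q := by linear_combination -b * hu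
    rw [e]
    exact dvd_sub (h2.mul_right _) (h4.mul_right _)
  · have e : c = (r * a + s * c) * p - (p * a + q * c) * r := by linear_combination -c * hu
    rw [e]
    exact dvd_sub (h3.mul_right _) (h1.mul_right _)
  · have e : d = (r * b + s * d) * p - (p * b + q * d) * r := by linear_combination -d * hu
    rw [e]
    exact dvd_sub (h4.mul_right _) (h2.mul_right _)

/-- the greatest common divisor of four integers -/
theorem exists_content (a b c d : ℤ) : ∃ e x y z t : ℤ, e ∣ a ∧ e ∣ b ∧ e ∣ c ∧ e ∣ d ∧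
    e = x * a + y * b + z * c + t * d := by
  refine ⟨Int.gcd (Int.gcd a b) (Int.gcd c d),
    Int.gcdA (Int.gcd a b) (Int.gcd c d) * Int.gcdA a b,
    Int.gcdA (Int.gcd a b) (Int.gcd c d) * Int.gcdB a b,
    Int.gcdB (Int.gcd a b) (Int.gcd c d) * Int.gcdA c d,
    Int.gcdB (Int.gcd a b) (Int.gcd c d) * Int.gcdB c d, ?_, ?_, ?_, ?_, ?_⟩
  · exact (Int.gcd_dvd_left ..).trans (Int.gcd_dvd_left ..)
  · exact (Int.gcd_dvd_left ..).trans (Int.gcd_dvd_right ..)
  · exact (Int.gcd_dvd_right ..).trans (Int.gcd_dvd_left ..)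
  · exact (Int.gcd_dvd_right ..).trans (Int.gcd_dvd_right ..)
  · rw [Int.gcd_eq_gcd_ab (Int.gcd a b : ℤ) (Int.gcd c d : ℤ)]
    nth_rewrite 1 [Int.gcd_eq_gcd_ab a b]
    nth_rewrite 2 [Int.gcd_eq_gcd_ab c d]
    ring

theorem prim_bezout {a b c d : ℤ} (h : Prim a b c d) :
    ∃ x y z t : ℤ, 1 = x * a + y * b + z * c + t * d := by
  obtain ⟨e, x, y, z, t, h1, h2, h3, h4, h5⟩ := exists_content a b c d
  obtain ⟨u, hu⟩ := (h e h1 h2 h3 h4).exists_left_inv
  exact ⟨u * x, u * y, u * z, u * t, by rw [← hu, h5]; ring⟩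

theorem prim_dvd {a b c d k N : ℤ} (h : Prim a b c d) (h1 : k ∣ N * a) (h2 : k ∣ N * b)
    (h3 : k ∣ N * c) (h4 : k ∣ N * d) : k ∣ N := by
  obtain ⟨x, y, z, t, he⟩ := prim_bezout h
  have : N = N * a * x + N * b * y + N * c * z + N * d * t := by linear_combination N * he
  rw [this]
  exact dvd_add (dvd_add (dvd_add (h1.mul_right _) (h2.mul_right _)) (h3.mul_right _))
    (h4.mul_right _)

/-- division by the content -/
theorem exists_prim {a b c d : ℤ} (h : 0 < a * d - b * c) : ∃ e a' b' c' d' : ℤ, e ≠ 0 ∧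
    a = e * a' ∧ b = e * b' ∧ c = e * c' ∧ d = e * d' ∧ Prim a' b' c' d' ∧
    0 < a' * d' - b' * c' := by
  obtain ⟨e, x, y, z, t, ⟨a', rfl⟩, ⟨b', rfl⟩, ⟨c', rfl⟩, ⟨d', rfl⟩, h5⟩ := exists_content a b c d
  have he : e ≠ 0 := by
    rintro rfl
    simp at h
  refine ⟨e, a', b', c', d', he, rfl, rfl, rfl, rfl, ?_, ?_⟩
  · intro g h1 h2 h3 h4
    have h6 : (1 : ℤ) = x * a' + y * b' + z * c' + t * d' := by
      apply mul_left_cancel₀ he
      linear_combination h5
    have : g ∣ 1 := by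
      rw [h6]
      exact dvd_add (dvd_add (dvd_add (h1.mul_left _) (h2.mul_left _)) (h3.mul_left _))
        (h4.mul_left _)
    exact isUnit_of_dvd_one this
  · have h6 : (e * a') * (e * d') - (e * b') * (e * c') = e ^ 2 * (a' * d' - b' * c') := by ring
    rw [h6] at h
    exact (pos_iff_pos_of_mul_pos h).1 (by positivity)

/-- the matrix of a cyclic isogeny between given points of the upper half plane -/
theorem cyc_from (hinj : J_INJ) {N : ℕ} {x y : ℂ} (h : Cyc N x y) {τ w : ℍ} (hτ : jj τ = x)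
    (hw : jj w = y) : ∃ a b c d : ℤ, a * d - b * c = N ∧ Prim a b c d ∧ R a b c d τ w := by
  obtain ⟨a, b, c, d, τ', w', h1, h2, h3, h4, h5⟩ := h
  obtain ⟨p, q, r, s, h6, h7⟩ := hinj τ τ' (hτ.trans h4.symm)
  obtain ⟨p', q', r', s', h8, h9⟩ := hinj w' w (h5.trans hw.symm)
  have h10 : R p q r s τ τ' := h7
  have h11 : R a b c d τ' w' := h3
  have h12 : R p' q' r' s' w' w := h9
  have h13 := (h10.comp h11).comp h12
  refine ⟨_, _, _, _, ?_, prim_left (prim_right (show Prim a b c d from h2) h6) h8, h13⟩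
  have e : (p' * (a * p + b * r) + q' * (c * p + d * r)) *
      (r' * (a * q + b * s) + s' * (c * q + d * s)) -
      (p' * (a * q + b * s) + q' * (c * q + d * s)) *
      (r' * (a * p + b * r) + s' * (c * p + d * r)) =
      (p' * s' - q' * r') * ((a * d - b * c) * (p * s - q * r)) := by ring
  rw [e, h6, h8, h1]
  ring

theorem cyc_of {a b c d : ℤ} {N : ℕ} (h1 : a * d - b * c = N) (h2 : Prim a b c d) {τ w : ℍ}
    (h3 : R a b c d τ w) : Cyc N (jj τ) (jj w) := ⟨a, b, c, d, τ, w, h1, h2, h3, rfl, rfl⟩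

theorem cyc_symm {N : ℕ} {x y : ℂ} (h : Cyc N x y) : Cyc N y x := by
  obtain ⟨a, b, c, d, τ, w, h1, h2, h3, rfl, rfl⟩ := h
  exact cyc_of (by rw [← h1]; ring) (prim_swap h2) (show R a b c d τ w from h3).inv

theorem isog_trans (hinj : J_INJ) {x y z : ℂ} (h : Isog x y) (h' : Isog y z) : Isog x z := by
  obtain ⟨N, hN, a, b, c, d, τ, w, h1, h2, h3, rfl, rfl⟩ := h
  obtain ⟨M, hM, h4⟩ := h'
  obtain ⟨-, -, -, -, -, v, -, -, -, -, rfl⟩ := id h4
  obtain ⟨a', b', c', d', h5, -, h7⟩ := cyc_from hinj h4 (τ := w) (w := v) rfl rfl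
  have h8 := (show R a b c d τ w from h3).comp h7
  have hdet : (a' * a + b' * c) * (c' * b + d' * d) - (a' * b + b' * d) * (c' * a + d' * c) =
      (M : ℤ) * N := by
    rw [← h1, ← h5]; ring
  have hpos : 0 < (a' * a + b' * c) * (c' * b + d' * d) -
      (a' * b + b' * d) * (c' * a + d' * c) := by
    rw [hdet]
    positivity
  obtain ⟨e, p, q, r, s, he, e1, e2, e3, e4, hp, hd⟩ := exists_prim hpos
  rw [e1, e2, e3, e4] at h8
  refine ⟨(p * s - q * r).toNat, by omega, cyc_of ?_ hp (h8.scale he)⟩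
  rw [Int.toNat_of_nonneg hd.le]

/-- a point of the upper half plane is not real -/
theorem lin_zero {p q : ℤ} {τ : ℍ} (h : (p : ℂ) * τ + q = 0) : p = 0 ∧ q = 0 := by
  have him := congrArg Complex.im h
  have hre := congrArg Complex.re h
  simp at him hre
  have hy : τ.im ≠ 0 := τ.im_pos.ne'
  have hp : p = 0 := by
    rcases him with h | h
    · exact h
    · exact absurd h hy
  subst hp
  refine ⟨rfl, ?_⟩
  have : (q : ℝ) = 0 := by simpa using hre
  exact_mod_cast this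

theorem cyc_unique (hinj : J_INJ) {N M : ℕ} {x y : ℂ} (hN : 0 < N) (_hM : 0 < M)
    (hx : ¬ SpecialPoint x) (h : Cyc N x y) (h' : Cyc M x y) : N = M := by
  obtain ⟨a, b, c, d, τ, w, h1, h2, h3, rfl, rfl⟩ := h
  obtain ⟨a', b', c', d', h1', h2', h3'⟩ := cyc_from hinj h' (τ := τ) (w := w) rfl rfl
  unfold R at h3'
  have hq : ((a * c' - a' * c : ℤ) : ℂ) * (τ : ℂ) ^ 2 +
      ((a * d' + b * c' - a' * d - b' * c : ℤ) : ℂ) * τ + ((b * d' - b' * d : ℤ) : ℂ) = 0 := by
    push_cast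
    linear_combination ((c : ℂ) * τ + d) * h3' - ((c' : ℂ) * τ + d') * h3
  have k1 : a * c' - a' * c = 0 := by
    by_contra hne
    exact hx ⟨τ, ⟨_, _, _, hne, hq⟩, rfl⟩
  rw [k1, Int.cast_zero, zero_mul, zero_add] at hq
  obtain ⟨k2, k3⟩ := lin_zero hq
  set l : ℤ := d * a' - b * c' with hl
  have e1 : (N : ℤ) * a' = l * a := by rw [← h1, hl]; linear_combination b * k1
  have e2 : (N : ℤ) * b' = l * b := by
    rw [← h1, hl]; linear_combination b * k2 - a * k3
  have e3 : (N : ℤ) * c' = l * c := by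
    rw [← h1, hl]; linear_combination d * k1
  have e4 : (N : ℤ) * d' = l * d := by
    rw [← h1, hl]; linear_combination d * k2 - c * k3
  have d1 : l ∣ (N : ℤ) := prim_dvd h2' (by rw [e1]; exact dvd_mul_right _ _)
    (by rw [e2]; exact dvd_mul_right _ _) (by rw [e3]; exact dvd_mul_right _ _)
    (by rw [e4]; exact dvd_mul_right _ _)
  have d2 : (N : ℤ) ∣ l := prim_dvd (show Prim a b c d from h2)
    (by rw [← e1]; exact dvd_mul_right _ _)
    (by rw [← e2]; exact dvd_mul_right _ _) (by rw [← e3]; exact dvd_mul_right _ _)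
    (by rw [← e4]; exact dvd_mul_right _ _)
  have d3 : l.natAbs = ((N : ℤ)).natAbs := Int.natAbs_eq_of_dvd_dvd d1 d2
  have d4 : l ^ 2 = (N : ℤ) ^ 2 := by
    rw [← Int.natAbs_sq l, ← Int.natAbs_sq (N : ℤ), d3]
  have d5 : (N : ℤ) ^ 2 * M = l ^ 2 * N := by
    rw [← h1']
    have : (N : ℤ) ^ 2 * (a' * d' - b' * c') = (N * a') * (N * d') - (N * b') * (N * c') := by ring
    rw [this, e1, e2, e3, e4]
    have h1'' : (N : ℤ) = a * d - b * c := h1.symm
    rw [h1'']
    ring
  rw [d4] at d5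
  have hN2 : (N : ℤ) ^ 2 ≠ 0 := by positivity
  have := mul_left_cancel₀ hN2 d5
  exact_mod_cast this.symm

/-- quadratic numbers and integral matrices -/
theorem quad_transfer {p q r s A B C : ℤ} (hd : p * s - q * r ≠ 0) (hA : A ≠ 0) {τ w : ℍ}
    (h : R p q r s τ w) (hq : (A : ℂ) * (τ : ℂ) ^ 2 + B * τ + C = 0) :
    ∃ A' B' C' : ℤ, A' ≠ 0 ∧ (A' : ℂ) * (w : ℂ) ^ 2 + B' * w + C' = 0 := by
  have h' : (τ : ℂ) * (-r * w + p) = s * w - q := by
    have := h.inv
    unfold R at this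
    push_cast at this
    linear_combination this
  have hq' : ((A * s ^ 2 - B * s * r + C * r ^ 2 : ℤ) : ℂ) * (w : ℂ) ^ 2 +
      ((-2 * A * s * q + B * (s * p + q * r) - 2 * C * p * r : ℤ) : ℂ) * w +
      ((A * q ^ 2 - B * q * p + C * p ^ 2 : ℤ) : ℂ) = 0 := by
    push_cast
    have e1 : (A : ℂ) * (τ * (-r * w + p)) ^ 2 + B * (τ * (-r * w + p)) * (-r * w + p) +
        C * (-r * w + p) ^ 2 = 0 := by
      linear_combination (-(r : ℂ) * w + p) ^ 2 * hq
    rw [h'] at e1
    linear_combination e1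
  by_cases hA' : A * s ^ 2 - B * s * r + C * r ^ 2 = 0
  · exfalso
    rw [hA', Int.cast_zero, zero_mul, zero_add] at hq'
    obtain ⟨k1, k2⟩ := lin_zero hq'
    have : A * (p * s - q * r) ^ 2 = 0 := by
      linear_combination p ^ 2 * hA' + p * r * k1 + r ^ 2 * k2
    rcases mul_eq_zero.1 this with h0 | h0
    · exact hA h0
    · exact hd (pow_eq_zero_iff (by norm_num) |>.1 h0)
  · exact ⟨_, _, _, hA', hq'⟩

theorem special_transfer (hinj : J_INJ) {x y : ℂ} (hx : SpecialPoint x) (h : Isog x y) :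
    SpecialPoint y := by
  obtain ⟨τ, ⟨A, B, C, hA, hq⟩, rfl⟩ := hx
  obtain ⟨N, hN, h4⟩ := h
  obtain ⟨-, -, -, -, -, v, -, -, -, -, rfl⟩ := id h4
  obtain ⟨a, b, c, d, h5, -, h7⟩ := cyc_from hinj h4 (τ := τ) (w := v) rfl rfl
  obtain ⟨A', B', C', hA', hq'⟩ := quad_transfer (by rw [h5]; positivity) hA h7 hq
  exact ⟨v, ⟨A', B', C', hA', hq'⟩, rfl⟩

theorem special_algebraic {x : ℂ} (hx : SpecialPoint x) : IsAlgebraic ℚ x := by
  obtain ⟨τ, ⟨A, B, C, hA, hq⟩, rfl⟩ := hx
  have h1 : IsIntegral ℤ (jj τ) := singular_modulus_integral τ ⟨A, B, C, hA, hq⟩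
  have h2 : IsIntegral ℚ (jj τ) := h1.tower_top
  exact h2.isAlgebraic

theorem cyc_one (hs : J_SURJ) (x : ℂ) : Cyc 1 x x := by
  obtain ⟨τ, rfl⟩ := hs x
  refine cyc_of (a := 1) (b := 0) (c := 0) (d := 1) (by norm_num)
    (fun g h _ _ _ => isUnit_of_dvd_one h) ?_
  unfold R
  push_cast
  ring

/-- piece J_REL -/
theorem j_rel (hs : J_SURJ) (hinj : J_INJ) : J_REL :=
  ⟨cyc_one hs, fun _ _ _ _ h => cyc_symm h, fun _ _ _ h h' => isog_trans hinj h h',
    fun _ _ _ _ hN hM hx h h' => cyc_unique hinj hN hM hx h h',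
    fun _ _ hx h => special_transfer hinj hx h, fun _ hx => special_algebraic hx⟩

end Pool.Agent.W2helper56.HL
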